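import Mathlib

/-!
# A countable ZFC example: omega-Lindelof but not k-Lindelof

The space is the binary tree `2^{<ω}` of all finite binary sequences, all of them isolated,
together with one more point `∞`; a set `U` containing `∞` is open if and only if every branch of
the tree is contained in `U` except for finitely many nodes.

* The space is countable, hence it is trivially `ω`-Lindelof.
* Branches together with `∞` are compact, while the downward closure of a compact set has only
  finitely many infinite branches.
* The open sets containing only countably many full branches form a `k`-cover: for a compact `K`,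
  remove from the space the minimal nodes which have no extension in `K`.
* Since there are uncountably many branches, no countable subfamily is a `k`-cover.
-/

namespace Pool.Agent.Results.MP_a2c218_gt.CountableExample

open Set Filter Topology

/-- `U` is an `ω`-cover of `X`: a family of open sets, `X` not among them, such that every
finite subset of `X` is contained in some member. -/
def IsOmegaCover (X : Type*) [TopologicalSpace X] (U : Set (Set X)) : Prop :=
  (∀ u ∈ U, IsOpen u) ∧ Set.univ ∉ U ∧ ∀ F : Set X, F.Finite → ∃ u ∈ U, F ⊆ u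

/-- `U` is a `k`-cover of `X`: a family of open sets, `X` not among them, such that every
compact subset of `X` is contained in some member. -/
def IsKCover (X : Type*) [TopologicalSpace X] (U : Set (Set X)) : Prop :=
  (∀ u ∈ U, IsOpen u) ∧ Set.univ ∉ U ∧ ∀ K : Set X, IsCompact K → ∃ u ∈ U, K ⊆ u

/-- `X` is `ω`-Lindelof: every `ω`-cover contains a countable `ω`-cover. -/
def OmegaLindelof (X : Type*) [TopologicalSpace X] : Prop :=
  ∀ U : Set (Set X), IsOmegaCover X U → ∃ V ⊆ U, V.Countable ∧ IsOmegaCover X V

/-- `X` is `k`-Lindelof: every `k`-cover contains a countable `k`-cover. -/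
def KLindelof (X : Type*) [TopologicalSpace X] : Prop :=
  ∀ U : Set (Set X), IsKCover X U → ∃ V ⊆ U, V.Countable ∧ IsKCover X V

/-- The underlying set of the example: finite binary sequences and one more point. -/
def Sp : Type := Option (List Bool)

/-- The point at infinity. -/
def infty : Sp := (none : Option (List Bool))

/-- The node of length `n` of the branch `y`. -/
def node (y : ℕ → Bool) (n : ℕ) : Sp := some ((List.range n).map y)

lemma node_ne_infty (y : ℕ → Bool) (n : ℕ) : node y n ≠ infty := by
  intro h
  exact Option.some_ne_none _ h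

lemma exists_node {p : Sp} (hp : p ≠ infty) : ∃ y n, p = node y n := by
  rcases p with _ | l
  · exact absurd rfl hp
  · refine ⟨fun i => l.getD i false, l.length, ?_⟩
    unfold node
    congr 1
    apply List.ext_getElem
    · simp
    · intro i h1 h2
      simp [List.getD_eq_getElem?_getD, List.getElem?_eq_getElem h1]

lemma node_eq_iff {y z : ℕ → Bool} {n m : ℕ} :
    node y n = node z m ↔ n = m ∧ ∀ i < n, y i = z i := by
  unfold node
  constructor
  · intro h
    have h1 : (List.range n).map y = (List.range m).map z := Option.some.inj h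
    have h2 : n = m := by simpa using congrArg List.length h1
    subst h2
    refine ⟨rfl, fun i hi => ?_⟩
    have := List.map_eq_map_iff.1 h1 i (List.mem_range.2 hi)
    exact this
  · rintro ⟨rfl, h⟩
    congr 1
    exact List.map_congr_left fun i hi => h i (List.mem_range.1 hi)

instance : Countable Sp := inferInstanceAs (Countable (Option (List Bool)))

/-- The topology of the example. -/
instance : TopologicalSpace Sp where
  IsOpen U := infty ∈ U → ∀ y : ℕ → Bool, {n | node y n ∉ U}.Finite
  isOpen_univ := by
    intro _ y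
    simp
  isOpen_inter := by
    intro U V hU hV h y
    refine ((hU h.1 y).union (hV h.2 y)).subset ?_
    intro n hn
    by_contra hcon
    simp only [Set.mem_union, Set.mem_ofPred_eq, not_or, not_not] at hcon
    exact hn hcon
  isOpen_sUnion := by
    intro 𝒰 h𝒰 h y
    obtain ⟨U, hU, hin⟩ := h
    refine (h𝒰 U hU hin y).subset ?_
    intro n hn hmem
    exact hn ⟨U, hU, hmem⟩

lemma isOpen_iff {U : Set Sp} :
    IsOpen U ↔ (infty ∈ U → ∀ y : ℕ → Bool, {n | node y n ∉ U}.Finite) := Iff.rfl

lemma isOpen_of_notMem {U : Set Sp} (h : infty ∉ U) : IsOpen U := fun h' => absurd h' h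

lemma isClosed_of_mem {U : Set Sp} (h : infty ∈ U) : IsClosed U := by
  rw [← isOpen_compl_iff]
  exact isOpen_of_notMem fun h' => h' h

instance : T1Space Sp := by
  refine ⟨fun p => ?_⟩
  by_cases hp : p = infty
  · subst hp
    exact isClosed_of_mem rfl
  · rw [← isOpen_compl_iff]
    intro _ y
    refine Set.Subsingleton.finite ?_
    intro n hn m hm
    simp only [Set.mem_ofPred_eq, Set.mem_compl_iff, Set.mem_singleton_iff, not_not] at hn hm
    exact (node_eq_iff.1 (hn.trans hm.symm)).1

instance : NormalSpace Sp := by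
  refine ⟨fun A B hA hB hAB => ?_⟩
  by_cases h : infty ∈ A
  · have hB' : infty ∉ B := fun h' => (Set.disjoint_left.1 hAB) h h'
    exact ⟨Bᶜ, B, hB.isOpen_compl, isOpen_of_notMem hB', Set.subset_compl_iff_disjoint_right.2 hAB,
      subset_rfl, disjoint_compl_left⟩
  · exact ⟨A, Aᶜ, isOpen_of_notMem h, hA.isOpen_compl, subset_rfl,
      Set.subset_compl_iff_disjoint_left.2 hAB, disjoint_compl_right⟩

instance : T4Space Sp := ⟨⟩

/-- Branches converge to the point at infinity. -/
lemma tendsto_node (y : ℕ → Bool) : Tendsto (node y) atTop (𝓝 infty) := by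
  rw [tendsto_nhds]
  intro U hU hin
  have h := isOpen_iff.1 hU hin y
  have h2 := h.eventually_cofinite_notMem
  rw [Nat.cofinite_eq_atTop] at h2
  filter_upwards [h2] with n hn
  by_contra hcon
  exact hn hcon

lemma isCompact_branch (y : ℕ → Bool) : IsCompact (insert infty (Set.range (node y))) :=
  (tendsto_node y).isCompact_insert_range

/-- A subset of a compact set, almost disjoint from all branches, is finite. -/
lemma finite_of_compact {K S : Set Sp} (hK : IsCompact K) (hSK : S ⊆ K) (hinf : infty ∉ S)
    (hS : ∀ y : ℕ → Bool, {n | node y n ∈ S}.Finite) : S.Finite := by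
  have hcl : IsClosed S := by
    rw [← isOpen_compl_iff, isOpen_iff]
    intro _ y
    simpa using hS y
  have hSc : IsCompact S := by
    have := hK.inter_right hcl
    rwa [Set.inter_eq_self_of_subset_right hSK] at this
  obtain ⟨t, ht⟩ := hSc.elim_finite_subcover (fun p : S => ({p.1} : Set Sp))
    (fun p => isOpen_of_notMem (by
      intro h
      exact hinf (h ▸ p.2)))
    (by
      intro p hp
      exact Set.mem_iUnion.2 ⟨⟨p, hp⟩, rfl⟩)
  refine (t.finite_toSet.image Subtype.val).subset ?_
  intro p hp
  obtain ⟨q, hq⟩ := Set.mem_iUnion.1 (ht hp)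
  obtain ⟨hqt, hpq⟩ := Set.mem_iUnion.1 hq
  exact ⟨q, hqt, (Set.mem_singleton_iff.1 hpq).symm⟩

/-- The node `y ↾ n` has an extension in `K`. -/
def Ext (K : Set Sp) (y : ℕ → Bool) (n : ℕ) : Prop :=
  ∃ z m, n ≤ m ∧ (∀ i < n, z i = y i) ∧ node z m ∈ K

lemma Ext.congr {K : Set Sp} {y z : ℕ → Bool} {n : ℕ} (h : ∀ i < n, y i = z i)
    (hy : Ext K y n) : Ext K z n := by
  obtain ⟨w, m, h1, h2, h3⟩ := hy
  exact ⟨w, m, h1, fun i hi => (h2 i hi).trans (h i hi), h3⟩

/-- The downward closure of a compact set has only finitely many infinite branches. -/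
lemma finite_branches {K : Set Sp} (hK : IsCompact K) : {y : ℕ → Bool | ∀ n, Ext K y n}.Finite := by
  by_contra hinf
  have hinf' : {y : ℕ → Bool | ∀ n, Ext K y n}.Infinite := hinf
  obtain ⟨y, hy⟩ := hinf'.exists_accPt_principal
  rw [accPt_iff_nhds] at hy
  have key : ∀ n : ℕ, ∃ (w : ℕ → Bool) (D m : ℕ), n ≤ D ∧ D < m ∧ (∀ i < D, w i = y i) ∧
      w D ≠ y D ∧ node w m ∈ K := by
    intro n
    have hnb : {z : ℕ → Bool | ∀ i < n, z i = y i} ∈ 𝓝 y := by
      have h1 : IsOpen (PiNat.cylinder y n) := PiNat.isOpen_cylinder _ y n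
      have h2 := h1.mem_nhds (PiNat.self_mem_cylinder y n)
      exact h2
    obtain ⟨z, ⟨hz1, hz2⟩, hz3⟩ := hy _ hnb
    have hex : ∃ i, z i ≠ y i := by
      by_contra hcon
      push Not at hcon
      exact hz3 (funext hcon)
    classical
    set D := Nat.find hex with hD
    have hD1 : z D ≠ y D := Nat.find_spec hex
    have hD2 : ∀ i < D, z i = y i := fun i hi => by
      by_contra hne
      exact Nat.find_min hex hi hne
    have hD3 : n ≤ D := by
      by_contra hlt
      push Not at hlt
      exact hD1 (hz1 D hlt)
    obtain ⟨w, m, h1, h2, h3⟩ := hz2 (D + 1)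
    refine ⟨w, D, m, hD3, h1, ?_, ?_, h3⟩
    · intro i hi
      rw [h2 i (by omega), hD2 i hi]
    · rw [h2 D (by omega)]
      exact hD1
  choose w D m h1 h2 h3 h4 h5 using key
  set S : Set Sp := Set.range fun n => node (w n) (m n) with hS
  have hSfin : S.Finite := by
    refine finite_of_compact hK ?_ ?_ ?_
    · rintro _ ⟨n, rfl⟩
      exact h5 n
    · rintro ⟨n, hn⟩
      exact node_ne_infty _ _ hn
    · intro z
      by_cases hz : z = y
      · subst hz
        convert Set.finite_empty (α := ℕ)
        rw [Set.eq_empty_iff_forall_notMem]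
        rintro k ⟨n, hn⟩
        obtain ⟨h6, h7⟩ := node_eq_iff.1 hn
        exact h4 n (h7 _ (h2 n))
      · have hex : ∃ i, z i ≠ y i := by
          by_contra hcon
          push Not at hcon
          exact hz (funext hcon)
        obtain ⟨E, hE⟩ := hex
        refine ((Set.finite_le_nat E).image m).subset ?_
        rintro k ⟨n, hn⟩
        obtain ⟨h6, h7⟩ := node_eq_iff.1 hn
        refine ⟨n, ?_, h6⟩
        have h8 : D n ≤ E := by
          by_contra hlt
          push Not at hlt
          apply hE
          rw [← h7 E (hlt.trans (h2 n)), h3 n E hlt]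
        exact (h1 n).trans h8
  -- but the lengths are unbounded
  have hlen : ((fun p : Sp => Option.elim p 0 List.length) '' S).Finite := hSfin.image _
  obtain ⟨B, hB⟩ := hlen.bddAbove
  have h6 := hB ⟨_, ⟨B, rfl⟩, rfl⟩
  have h7 : Option.elim (node (w B) (m B)) 0 List.length = m B := by
    unfold node
    simp
  have h8 : (fun p : Sp => Option.elim p 0 List.length) (node (w B) (m B)) = m B := h7
  rw [h8] at h6
  have := h1 B
  have := h2 B
  omega

lemma not_countable_branches : ¬ (Set.univ : Set (ℕ → Bool)).Countable := by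
  intro h
  have hc : Countable (ℕ → Bool) := Set.countable_univ_iff.1 h
  obtain ⟨f, hf⟩ := exists_surjective_nat (ℕ → Bool)
  obtain ⟨n, hn⟩ := hf fun n => !(f n n)
  have h1 := congrFun hn n
  simp at h1

/-- The open sets containing only countably many full branches. -/
def bigCover : Set (Set Sp) :=
  {U | IsOpen U ∧ {y : ℕ → Bool | ∀ n, node y n ∈ U}.Countable}

lemma bigCover_isKCover : IsKCover Sp bigCover := by
  refine ⟨fun u hu => hu.1, ?_, ?_⟩
  · intro h
    have h2 := h.2
    have h3 : {y : ℕ → Bool | ∀ n, node y n ∈ (Set.univ : Set Sp)} = Set.univ := by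
      ext y
      simp
    rw [h3] at h2
    exact not_countable_branches h2
  · intro K hK
    classical
    set N : Set Sp := {p | ∃ y n, p = node y n ∧ ¬ Ext K y n ∧ ∀ m < n, Ext K y m} with hN
    refine ⟨Nᶜ, ⟨?_, ?_⟩, ?_⟩
    · rw [isOpen_iff]
      intro _ y
      refine Set.Subsingleton.finite ?_
      have hchar : ∀ n, node y n ∉ Nᶜ → ¬ Ext K y n ∧ ∀ m < n, Ext K y m := by
        intro n hn
        have hn' : node y n ∈ N := by
          by_contra hcon
          exact hn hcon
        obtain ⟨z, k, h1, h2, h3⟩ := hn'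
        obtain ⟨rfl, h4⟩ := node_eq_iff.1 h1
        refine ⟨fun h => h2 (h.congr h4), fun m hm => (h3 m hm).congr ?_⟩
        intro i hi
        exact (h4 i (hi.trans hm)).symm
      intro n hn m hm
      obtain ⟨h1, h2⟩ := hchar n hn
      obtain ⟨h3, h4⟩ := hchar m hm
      rcases lt_trichotomy n m with h | h | h
      · exact absurd (h4 n h) h1
      · exact h
      · exact absurd (h2 m h) h3
    · refine (finite_branches hK).countable.mono ?_
      intro y hy
      by_contra hcon
      simp only [Set.mem_ofPred_eq, not_forall] at hcon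
      have h1 := Nat.find_spec hcon
      have h2 : ∀ m < Nat.find hcon, Ext K y m := fun m hm => by
        by_contra h
        exact Nat.find_min hcon hm h
      exact hy (Nat.find hcon) ⟨y, _, rfl, h1, h2⟩
    · rintro p hp ⟨y, n, rfl, h1, _⟩
      exact h1 ⟨y, n, le_rfl, fun _ _ => rfl, hp⟩

lemma not_kLindelof : ¬ KLindelof Sp := by
  intro h
  obtain ⟨V, hVU, hVc, hV⟩ := h bigCover bigCover_isKCover
  have h1 : (⋃ U ∈ V, {y : ℕ → Bool | ∀ n, node y n ∈ U}).Countable :=
    hVc.biUnion fun U hU => (hVU hU).2
  have h2 : ∃ y : ℕ → Bool, y ∉ ⋃ U ∈ V, {y : ℕ → Bool | ∀ n, node y n ∈ U} := by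
    by_contra hcon
    push Not at hcon
    have h3 : (Set.univ : Set (ℕ → Bool)).Countable := h1.mono fun y _ => hcon y
    exact not_countable_branches h3
  obtain ⟨y, hy⟩ := h2
  obtain ⟨U, hU, hsub⟩ := hV.2.2 _ (isCompact_branch y)
  apply hy
  refine Set.mem_iUnion₂.2 ⟨U, hU, fun n => hsub ?_⟩
  exact Or.inr ⟨n, rfl⟩

/-- Every countable space is `ω`-Lindelof. -/
lemma omegaLindelof_of_countable (X : Type*) [TopologicalSpace X] [Countable X] :
    OmegaLindelof X := by
  intro U hU
  have h : ∀ F : Finset X, ∃ u ∈ U, (F : Set X) ⊆ u := fun F => hU.2.2 F F.finite_toSet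
  choose g hg1 hg2 using h
  refine ⟨Set.range g, ?_, Set.countable_range g, ?_, ?_, ?_⟩
  · rintro _ ⟨F, rfl⟩
    exact hg1 F
  · rintro _ ⟨F, rfl⟩
    exact hU.1 _ (hg1 F)
  · rintro ⟨F, hF⟩
    exact hU.2.1 (hF ▸ hg1 F)
  · intro F hF
    refine ⟨g hF.toFinset, ⟨_, rfl⟩, ?_⟩
    have := hg2 hF.toFinset
    rwa [hF.coe_toFinset] at this

/-- **A ZFC example.**  There is a countable normal `T₁` (hence zero-dimensional Hausdorff) space
which is `ω`-Lindelof and not `k`-Lindelof. -/
theorem result : ∃ (X : Type) (_ : TopologicalSpace X), Countable X ∧ T4Space X ∧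
    OmegaLindelof X ∧ ¬ KLindelof X :=
  ⟨Sp, inferInstance, inferInstance, inferInstance, omegaLindelof_of_countable Sp, not_kLindelof⟩

end Pool.Agent.Results.MP_a2c218_gt.CountableExample
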